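import Pool.Agent.H11.WX.Gau
import Pool.Agent.H30.WD.Defs

/-!
# WILD H: from the Gaussian average of `Λ` to primes between consecutive `B`-th powers
-/

set_option autoImplicit false

open Finset

namespace Pool.Agent.H11.WX

theorem gk_le {δ : ℝ} (hδ : 0 < δ) (v : ℝ) : gk δ v ≤ Real.exp (-(v ^ 2 / (2 * δ ^ 2))) * (1 / δ) := by
  unfold gk
  have h1 : 1 ≤ Real.sqrt (2 * Real.pi) := by
    rw [Real.one_le_sqrt]
    linarith [Real.pi_gt_three]
  rw [div_eq_mul_one_div]
  refine mul_le_mul_of_nonneg_left ?_ (Real.exp_pos _).le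
  apply one_div_le_one_div_of_le hδ
  nlinarith

theorem gk_nonneg {δ : ℝ} (hδ : 0 < δ) (v : ℝ) : 0 ≤ gk δ v := by
  unfold gk
  have : 0 ≤ Real.sqrt (2 * Real.pi) := Real.sqrt_nonneg _
  have := Real.exp_pos (-(v ^ 2 / (2 * δ ^ 2)))
  positivity

theorem gk_le' {δ : ℝ} (hδ : 0 < δ) (v : ℝ) : gk δ v ≤ 1 / δ := by
  refine (gk_le hδ v).trans ?_
  have h1 : Real.exp (-(v ^ 2 / (2 * δ ^ 2))) ≤ 1 := Real.exp_le_one_iff.2 (by
    have : 0 ≤ v ^ 2 / (2 * δ ^ 2) := by positivity
    linarith)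
  have h2 : 0 < 1 / δ := by positivity
  nlinarith

/-- one step -/
theorem fin_step (B j : ℕ) (hB : 4 ≤ B) (hj : 3 ≤ j) (h2 : 2 * B ≤ j)
    (h5 : 32 * ((B : ℝ) + 3) ≤ Real.log j) (h7 : 288 * ((B : ℝ) * Real.log j) ^ 2 ≤ j)
    (h8 : 8 * (B : ℝ) ^ 2 ≤ Real.log j)
    (hS : 1 / 3 ≤ ∑ n ∈ Icc 1 ⌈16 * (j : ℝ) ^ B⌉₊, ArithmeticFunction.vonMangoldt n / n *
      gk (1 / (j * (B * Real.log j))) (Real.log n - B * (Real.log j + Real.log (j + 1)) / 2)) :
    ((j : ℝ) ^ (B - 1)) / Real.log j ^ (3 : ℝ) ≤ (H30.WD.Nc B j : ℝ) := by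
  set L : ℝ := Real.log j with hL
  set x : ℝ := (j : ℝ) ^ B with hx
  set δ : ℝ := 1 / (j * (B * L)) with hδ
  set y : ℝ := B * (L + Real.log (j + 1)) / 2 with hy
  have hjr : (3 : ℝ) ≤ j := by exact_mod_cast hj
  have hBr : (4 : ℝ) ≤ B := by exact_mod_cast hB
  have h2r : 2 * (B : ℝ) ≤ j := by exact_mod_cast h2
  have hL1 : 1 ≤ L := by linarith
  have hj0 : (0 : ℝ) < j := by linarith
  have hBL : 4 ≤ B * L := by nlinarith
  have hBLj : B * L ≤ j := by nlinarith
  have hj5 : (4608 : ℝ) ≤ j := by nlinarith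
  have hδ0 : 0 < δ := by
    rw [hδ]
    positivity
  have hδi : 1 / δ = j * (B * L) := by
    rw [hδ, one_div_one_div]
  have hx0 : 0 < x := by rw [hx]; positivity
  -- the logarithm of j+1
  have hu1 : Real.log (j + 1) ≤ L + 1 / j := by
    have h1 : Real.log (j + 1) = L + Real.log (1 + 1 / j) := by
      rw [hL, ← Real.log_mul (by positivity) (by positivity)]
      congr 1
      field_simp
    rw [h1]
    have := Real.log_le_sub_one_of_pos (show (0 : ℝ) < 1 + 1 / j by positivity)
    linarith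
  have hu2 : L + 1 / (2 * j) ≤ Real.log (j + 1) := by
    have h1 : Real.log (j + 1) = L + Real.log (1 + 1 / j) := by
      rw [hL, ← Real.log_mul (by positivity) (by positivity)]
      congr 1
      field_simp
    rw [h1]
    have h3 := Real.one_sub_inv_le_log_of_pos (show (0 : ℝ) < 1 + 1 / j by positivity)
    have h4 : 1 / (2 * (j : ℝ)) ≤ 1 - (1 + 1 / (j : ℝ))⁻¹ := by
      have h5 : 1 - (1 + 1 / (j : ℝ))⁻¹ = 1 / (j + 1) := by
        field_simp
        ring
      rw [h5]
      apply one_div_le_one_div_of_le (by positivity)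
      linarith
    linarith
  -- the top of the cell
  set z : ℝ := ((j : ℝ) + 1) ^ B with hz
  have hz0 : 0 < z := by rw [hz]; positivity
  have hlogx : Real.log x = B * L := by rw [hx, Real.log_pow]
  have hlogz : Real.log z = B * Real.log (j + 1) := by rw [hz, Real.log_pow]
  have hBj : (B : ℝ) * (1 / j) ≤ 1 / 2 := by
    rw [mul_one_div, div_le_iff₀ hj0]
    linarith
  have hlogz1 : Real.log z ≤ B * L + 1 / 2 := by
    rw [hlogz]
    have := mul_le_mul_of_nonneg_left hu1 (show (0 : ℝ) ≤ B by positivity)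
    linarith
  have hlogz2 : Real.log z ≤ 2 * (B * L) := by linarith
  have hzx : z ≤ 2 * x := by
    have h1 : Real.log z ≤ Real.log (2 * x) := by
      rw [Real.log_mul (by norm_num) hx0.ne', hlogx]
      have := Real.log_two_gt_d9
      linarith
    exact (Real.log_le_log_iff hz0 (by positivity)).1 h1
  have hyx : B * L ≤ y := by
    rw [hy]
    have := mul_le_mul_of_nonneg_left (show L ≤ Real.log (j + 1) by
      have : (0 : ℝ) < 1 / (2 * j) := by positivity
      linarith) (show (0 : ℝ) ≤ B by positivity)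
    linarith
  set w : ℝ := B / (4 * j) with hw
  have hw1 : w ≤ y - B * L := by
    rw [hy, hw]
    have := mul_le_mul_of_nonneg_left hu2 (show (0 : ℝ) ≤ B by positivity)
    have h3 : (B : ℝ) * (1 / (2 * j)) = 2 * (B / (4 * j)) := by
      field_simp
      ring
    linarith
  have hw2 : w ≤ B * Real.log (j + 1) - y := by
    rw [hy, hw]
    have := mul_le_mul_of_nonneg_left hu2 (show (0 : ℝ) ≤ B by positivity)
    have h3 : (B : ℝ) * (1 / (2 * j)) = 2 * (B / (4 * j)) := by
      field_simp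
      ring
    linarith
  have hw0 : 0 < w := by rw [hw]; positivity
  -- the three bounds for a term
  set cell := Finset.Ioc (j ^ B) ((j + 1) ^ B) with hcell
  set N := ⌈16 * x⌉₊ with hN
  have hNle : (N : ℝ) ≤ 17 * x := by
    have h1 := Nat.ceil_lt_add_one (show 0 ≤ 16 * x by positivity)
    have h3 : 1 ≤ x := by
      rw [hx]
      exact one_le_pow₀ (by linarith)
    linarith
  have hterm : ∀ n ∈ Icc 1 N, ArithmeticFunction.vonMangoldt n / n * gk δ (Real.log n - y) ≤
      (if n ∈ cell.filter Nat.Prime then Real.log z * (1 / x) * (1 / δ) else 0) +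
      (if n ∈ cell.filter (fun n => ¬ Nat.Prime n) then
        ArithmeticFunction.vonMangoldt n * ((1 / x) * (1 / δ)) else 0) +
      Real.exp (-((B + 3) * L)) * (1 / δ) := by
    intro n hn
    have hn1 : 1 ≤ n := (mem_Icc.1 hn).1
    have hnr : (1 : ℝ) ≤ n := by exact_mod_cast hn1
    have hn0 : (0 : ℝ) < n := by linarith
    have hΛ0 : 0 ≤ ArithmeticFunction.vonMangoldt n := ArithmeticFunction.vonMangoldt_nonneg
    have hg0 : 0 ≤ gk δ (Real.log n - y) := gk_nonneg hδ0 _
    have hτ0 : 0 ≤ Real.exp (-((B + 3) * L)) * (1 / δ) := by positivity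
    by_cases hc : n ∈ cell
    · have hc' := Finset.mem_Ioc.1 hc
      have hxn : x ≤ n := by
        rw [hx]
        have : j ^ B ≤ n := hc'.1.le
        exact_mod_cast this
      have hnz : (n : ℝ) ≤ z := by
        rw [hz]
        exact_mod_cast hc'.2
      have h1n : 1 / (n : ℝ) ≤ 1 / x := one_div_le_one_div_of_le hx0 hxn
      by_cases hp : Nat.Prime n
      · rw [if_pos (Finset.mem_filter.2 ⟨hc, hp⟩), if_neg (fun h : n ∈ cell.filter (fun n => ¬ Nat.Prime n) =>
          (Finset.mem_filter.1 h).2 hp)]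
        have h1 : ArithmeticFunction.vonMangoldt n ≤ Real.log z := by
          rw [ArithmeticFunction.vonMangoldt_apply_prime hp]
          exact Real.log_le_log hn0 hnz
        have h3 : ArithmeticFunction.vonMangoldt n / n * gk δ (Real.log n - y) ≤
            Real.log z * (1 / x) * (1 / δ) := by
          rw [div_eq_mul_one_div]
          have h6 : 0 ≤ Real.log z := hΛ0.trans h1
          exact mul_le_mul (mul_le_mul h1 h1n (by positivity) h6) (gk_le' hδ0 _) hg0 (by positivity)
        linarith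
      · rw [if_neg (fun h : n ∈ cell.filter Nat.Prime => hp (Finset.mem_filter.1 h).2),
          if_pos (Finset.mem_filter.2 ⟨hc, hp⟩)]
        have h3 : ArithmeticFunction.vonMangoldt n / n * gk δ (Real.log n - y) ≤
            ArithmeticFunction.vonMangoldt n * ((1 / x) * (1 / δ)) := by
          rw [div_eq_mul_one_div, mul_assoc]
          exact mul_le_mul_of_nonneg_left (mul_le_mul h1n (gk_le' hδ0 _) hg0 (by positivity)) hΛ0
        linarith
    · rw [if_neg (fun h : n ∈ cell.filter Nat.Prime => hc (Finset.mem_filter.1 h).1),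
        if_neg (fun h : n ∈ cell.filter (fun n => ¬ Nat.Prime n) => hc (Finset.mem_filter.1 h).1),
        zero_add, zero_add]
      have hv : w ^ 2 ≤ (Real.log n - y) ^ 2 := by
        rcases Nat.lt_or_ge (j ^ B) n with h | h
        · have h' : (j + 1) ^ B < n := by
            by_contra hcon
            exact hc (Finset.mem_Ioc.2 ⟨h, by omega⟩)
          have h3 : B * Real.log (j + 1) ≤ Real.log n := by
            rw [← hlogz]
            apply Real.log_le_log hz0
            rw [hz]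
            exact_mod_cast h'.le
          exact pow_le_pow_left₀ hw0.le (by linarith) 2
        · have h3 : Real.log n ≤ B * L := by
            rw [← hlogx]
            apply Real.log_le_log hn0
            rw [hx]
            exact_mod_cast h
          have h4 : (Real.log n - y) ^ 2 = (y - Real.log n) ^ 2 := by ring
          rw [h4]
          exact pow_le_pow_left₀ hw0.le (by linarith) 2
      have hexp : Real.exp (-((Real.log n - y) ^ 2 / (2 * δ ^ 2))) ≤ Real.exp (-((B + 3) * L)) := by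
        apply Real.exp_le_exp.2
        rw [neg_le_neg_iff]
        have h3 : (B + 3) * L ≤ w ^ 2 / (2 * δ ^ 2) := by
          have h6 : w ^ 2 / (2 * δ ^ 2) = (B : ℝ) ^ 4 * L ^ 2 / 32 := by
            rw [hw, hδ]
            field_simp
            ring
          rw [h6]
          have h9 : (1 : ℝ) ≤ (B : ℝ) ^ 4 := one_le_pow₀ (by linarith)
          have h10 : 32 * ((B : ℝ) + 3) * L ≤ L ^ 2 := by nlinarith
          have h11 : L ^ 2 ≤ (B : ℝ) ^ 4 * L ^ 2 := by nlinarith [sq_nonneg L]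
          linarith
        refine h3.trans ?_
        exact div_le_div_of_nonneg_right hv (by positivity)
      have hln : ArithmeticFunction.vonMangoldt n / n ≤ 1 := by
        rw [div_le_one hn0]
        exact ArithmeticFunction.vonMangoldt_le_log.trans ((Real.log_le_sub_one_of_pos hn0).trans (by linarith))
      calc ArithmeticFunction.vonMangoldt n / n * gk δ (Real.log n - y) ≤ 1 * gk δ (Real.log n - y) :=
            mul_le_mul_of_nonneg_right hln hg0
        _ = gk δ (Real.log n - y) := one_mul _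
        _ ≤ Real.exp (-((Real.log n - y) ^ 2 / (2 * δ ^ 2))) * (1 / δ) := gk_le hδ0 _
        _ ≤ _ := mul_le_mul_of_nonneg_right hexp (by positivity)
  have hsum := hS.trans (Finset.sum_le_sum hterm)
  rw [Finset.sum_add_distrib, Finset.sum_add_distrib] at hsum
  -- the primes
  have hs1 : ∑ n ∈ Icc 1 N, (if n ∈ cell.filter Nat.Prime then Real.log z * (1 / x) * (1 / δ) else 0) ≤
      (H30.WD.Nc B j : ℝ) * (Real.log z * (1 / x) * (1 / δ)) := by
    rw [← Finset.sum_filter, Finset.sum_const, nsmul_eq_mul]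
    have hlz : 0 ≤ Real.log z := by
      rw [hlogz]
      have : 0 ≤ Real.log ((j : ℝ) + 1) := Real.log_nonneg (by linarith)
      positivity
    refine mul_le_mul_of_nonneg_right ?_ (by positivity)
    have : ((Icc 1 N).filter (fun n => n ∈ cell.filter Nat.Prime)).card ≤ H30.WD.Nc B j := by
      unfold H30.WD.Nc
      apply Finset.card_le_card
      intro n hn
      exact (Finset.mem_filter.1 hn).2
    exact_mod_cast this
  have hs2 : ∑ n ∈ Icc 1 N, (if n ∈ cell.filter (fun n => ¬ Nat.Prime n) then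
      ArithmeticFunction.vonMangoldt n * ((1 / x) * (1 / δ)) else 0) ≤
      (2 * Real.sqrt z * Real.log z) * ((1 / x) * (1 / δ)) := by
    rw [← Finset.sum_filter, ← Finset.sum_mul]
    refine mul_le_mul_of_nonneg_right ?_ (by positivity)
    have h1 : ∑ n ∈ (Icc 1 N).filter (fun n => n ∈ cell.filter (fun n => ¬ Nat.Prime n)),
        ArithmeticFunction.vonMangoldt n ≤ Chebyshev.psi z - Chebyshev.theta z := by
      rw [Chebyshev.psi_sub_theta_eq_sum_not_prime]
      refine Finset.sum_le_sum_of_subset_of_nonneg ?_ fun _ _ _ => ArithmeticFunction.vonMangoldt_nonneg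
      intro n hn
      have h3 := (Finset.mem_filter.1 hn).2
      have h4 := Finset.mem_filter.1 h3
      have h6 := Finset.mem_Ioc.1 h4.1
      refine Finset.mem_filter.2 ⟨Finset.mem_Ioc.2 ⟨by omega, ?_⟩, h4.2⟩
      apply Nat.le_floor
      rw [hz]
      exact_mod_cast h6.2
    refine h1.trans (Chebyshev.psi_sub_theta_le ?_)
    rw [hz]
    exact one_le_pow₀ (by linarith)
  have hs3 : ∑ n ∈ Icc 1 N, Real.exp (-((B + 3) * L)) * (1 / δ) ≤ 1 / 24 := by
    rw [Finset.sum_const, nsmul_eq_mul, Nat.card_Icc, Nat.add_sub_cancel]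
    have h1 : Real.exp (-((B + 3) * L)) = 1 / ((j : ℝ) ^ B * j ^ 3) := by
      have h3 : (B + 3) * L = Real.log ((j : ℝ) ^ B * j ^ 3) := by
        rw [Real.log_mul (by positivity) (by positivity), Real.log_pow, Real.log_pow]
        push_cast
        ring
      rw [h3, Real.exp_neg, Real.exp_log (by positivity), one_div]
    rw [h1, hδi]
    calc (N : ℝ) * (1 / ((j : ℝ) ^ B * j ^ 3) * (j * (B * L))) ≤
          (17 * x) * (1 / ((j : ℝ) ^ B * j ^ 3) * (j * (B * L))) :=
          mul_le_mul_of_nonneg_right hNle (by positivity)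
      _ = 17 * (B * L) / (j ^ 2) := by
          rw [hx]
          field_simp
      _ ≤ 17 * j / (j ^ 2) := by
          apply div_le_div_of_nonneg_right _ (by positivity)
          linarith
      _ = 17 / j := by field_simp
      _ ≤ 1 / 24 := by
          rw [div_le_div_iff₀ hj0 (by norm_num)]
          linarith
  have hs2' : (2 * Real.sqrt z * Real.log z) * ((1 / x) * (1 / δ)) ≤ 1 / 24 := by
    have hsx : (j : ℝ) ^ 2 ≤ Real.sqrt x := by
      apply Real.le_sqrt_of_sq_le
      rw [hx, ← pow_mul]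
      exact pow_le_pow_right₀ (by linarith) (by omega)
    have hsz : Real.sqrt z ≤ 3 / 2 * Real.sqrt x := by
      have h1 : Real.sqrt z ≤ Real.sqrt (2 * x) := Real.sqrt_le_sqrt hzx
      rw [Real.sqrt_mul (by norm_num)] at h1
      have h3 : Real.sqrt 2 ≤ 3 / 2 := by
        rw [Real.sqrt_le_left (by norm_num)]
        norm_num
      have := mul_le_mul_of_nonneg_right h3 (Real.sqrt_nonneg x)
      linarith
    have hxs : x = Real.sqrt x * Real.sqrt x := (Real.mul_self_sqrt hx0.le).symm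
    have hsx0 : 0 < Real.sqrt x := Real.sqrt_pos.2 hx0
    rw [hδi]
    have h1 : (2 * Real.sqrt z * Real.log z) * ((1 / x) * (j * (B * L))) ≤
        (2 * (3 / 2 * Real.sqrt x) * (2 * (B * L))) * ((1 / x) * (j * (B * L))) := by
      refine mul_le_mul_of_nonneg_right ?_ (by positivity)
      refine mul_le_mul (mul_le_mul_of_nonneg_left hsz (by norm_num)) hlogz2 ?_ (by positivity)
      rw [hlogz]
      have : 0 ≤ Real.log ((j : ℝ) + 1) := Real.log_nonneg (by linarith)
      positivity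
    refine h1.trans ?_
    have h3 : (2 * (3 / 2 * Real.sqrt x) * (2 * (B * L))) * ((1 / x) * (j * (B * L))) =
        6 * (B * L) ^ 2 * j / Real.sqrt x := by
      rw [eq_div_iff hsx0.ne']
      have : (1 / x) * (Real.sqrt x * Real.sqrt x) = 1 := by
        rw [← hxs, one_div, inv_mul_cancel₀ hx0.ne']
      calc (2 * (3 / 2 * Real.sqrt x) * (2 * (B * L))) * ((1 / x) * (j * (B * L))) * Real.sqrt x =
          6 * (B * L) ^ 2 * j * ((1 / x) * (Real.sqrt x * Real.sqrt x)) := by ring
        _ = _ := by rw [this, mul_one]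
    rw [h3]
    have h4 : 6 * (B * L) ^ 2 * j / Real.sqrt x ≤ 6 * (B * L) ^ 2 * j / (j : ℝ) ^ 2 :=
      div_le_div_of_nonneg_left (by positivity) (by positivity) hsx
    refine h4.trans ?_
    rw [div_le_div_iff₀ (by positivity) (by norm_num)]
    nlinarith
  -- conclusion
  have hfin : 1 / 4 ≤ (H30.WD.Nc B j : ℝ) * (Real.log z * (1 / x) * (1 / δ)) := by linarith
  have hNc0 : (0 : ℝ) ≤ H30.WD.Nc B j := Nat.cast_nonneg _
  have hfin2 : 1 / 4 ≤ (H30.WD.Nc B j : ℝ) * (2 * (B * L) * (1 / x) * (j * (B * L))) := by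
    refine hfin.trans (mul_le_mul_of_nonneg_left ?_ hNc0)
    rw [hδi]
    refine mul_le_mul_of_nonneg_right (mul_le_mul_of_nonneg_right hlogz2 (by positivity)) (by positivity)
  have hxj : x = (j : ℝ) ^ (B - 1) * j := by
    rw [hx, ← pow_succ]
    congr 1
    omega
  have hP : 0 < (j : ℝ) ^ (B - 1) := by positivity
  have h3 : (H30.WD.Nc B j : ℝ) * (2 * (B * L) * (1 / x) * (j * (B * L))) =
      (H30.WD.Nc B j : ℝ) * (2 * B ^ 2 * L ^ 2) / (j : ℝ) ^ (B - 1) := by
    rw [hxj]
    field_simp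
  rw [h3, le_div_iff₀ hP] at hfin2
  have hL3 : L ^ (3 : ℝ) = L ^ 3 := by
    rw [← Real.rpow_natCast]
    norm_num
  rw [hL3, div_le_iff₀ (by positivity)]
  have h4 : (j : ℝ) ^ (B - 1) ≤ (H30.WD.Nc B j : ℝ) * (8 * B ^ 2 * L ^ 2) := by linarith
  refine h4.trans (mul_le_mul_of_nonneg_left ?_ hNc0)
  nlinarith [sq_nonneg L]

theorem fin_input (d0 A1 X0 : ℝ) (hd0 : 0 < d0)
    (hG : ∀ X δ y : ℝ, X0 ≤ X → X ^ (-d0) ≤ δ → δ ≤ (Real.log X) ^ (-A1) → Real.log X ≤ y →
      y ≤ Real.log (2 * X) → ∀ N : ℕ, 16 * X ≤ N →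
      1 / 3 ≤ ∑ n ∈ Icc 1 N, ArithmeticFunction.vonMangoldt n / n * gk δ (Real.log n - y)) :
    ∃ (B J0 : ℕ) (A : ℝ), H30.WD.Input B J0 A := by
  obtain ⟨B, hB⟩ : ∃ B : ℕ, max 4 (2 / d0) ≤ (B : ℝ) := exists_nat_ge _
  have hB4 : (4 : ℝ) ≤ B := (le_max_left _ _).trans hB
  have hBd : 2 / d0 ≤ B := (le_max_right _ _).trans hB
  have hB4n : 4 ≤ B := by exact_mod_cast hB4
  have hB0 : (0 : ℝ) < B := by linarith
  have hBd' : 2 ≤ B * d0 := by
    rw [div_le_iff₀ hd0] at hBd
    exact hBd
  have tj : Filter.Tendsto (fun j : ℕ => (j : ℝ)) Filter.atTop Filter.atTop := tendsto_natCast_atTop_atTop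
  have tl : Filter.Tendsto (fun j : ℕ => Real.log (j : ℝ)) Filter.atTop Filter.atTop :=
    Real.tendsto_log_atTop.comp tj
  have e1 : ∀ᶠ j : ℕ in Filter.atTop, X0 ≤ (j : ℝ) := tj.eventually_ge_atTop _
  have e2 : ∀ᶠ j : ℕ in Filter.atTop, max 3 (2 * B) ≤ j := Filter.eventually_ge_atTop _
  have e5 : ∀ᶠ j : ℕ in Filter.atTop, 32 * ((B : ℝ) + 3) ≤ Real.log j := tl.eventually_ge_atTop _
  have e8 : ∀ᶠ j : ℕ in Filter.atTop, 8 * (B : ℝ) ^ 2 ≤ Real.log j := tl.eventually_ge_atTop _
  have e7 : ∀ᶠ j : ℕ in Filter.atTop, 288 * ((B : ℝ) * Real.log j) ^ 2 ≤ j := by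
    have h1 := (isLittleO_log_rpow_rpow_atTop (2 : ℝ) (show (0 : ℝ) < 1 by norm_num)).def
      (show (0 : ℝ) < 1 / (288 * (B : ℝ) ^ 2) by positivity)
    filter_upwards [tj.eventually h1, Filter.eventually_ge_atTop 3] with j hj hj3
    have hjr : (3 : ℝ) ≤ j := by exact_mod_cast hj3
    have hl0 : 0 ≤ Real.log j := Real.log_nonneg (by linarith)
    rw [Real.norm_of_nonneg (Real.rpow_nonneg hl0 _), Real.norm_of_nonneg (Real.rpow_nonneg (by linarith) _),
      Real.rpow_one] at hj
    have h3 : Real.log (j : ℝ) ^ (2 : ℝ) = Real.log j ^ 2 := by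
      rw [← Real.rpow_natCast]
      norm_num
    rw [h3, one_div, inv_mul_eq_div, le_div_iff₀ (by positivity)] at hj
    nlinarith
  have e4 : ∀ᶠ j : ℕ in Filter.atTop, ((B : ℝ) * Real.log j) ^ A1 ≤ j := by
    have h1 := (isLittleO_log_rpow_rpow_atTop (A1 : ℝ) (show (0 : ℝ) < 1 by norm_num)).def
      (show (0 : ℝ) < 1 / ((B : ℝ) ^ A1) by positivity)
    filter_upwards [tj.eventually h1, Filter.eventually_ge_atTop 3] with j hj hj3
    have hjr : (3 : ℝ) ≤ j := by exact_mod_cast hj3
    have hl0 : 0 ≤ Real.log j := Real.log_nonneg (by linarith)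
    rw [Real.norm_of_nonneg (Real.rpow_nonneg hl0 _), Real.norm_of_nonneg (Real.rpow_nonneg (by linarith) _),
      Real.rpow_one] at hj
    rw [one_div, inv_mul_eq_div, le_div_iff₀ (by positivity)] at hj
    rw [Real.mul_rpow hB0.le hl0]
    linarith
  obtain ⟨J0, hJ0⟩ := Filter.eventually_atTop.1 (e1.and (e2.and (e5.and (e8.and (e7.and e4)))))
  refine ⟨B, max 3 J0, 3, by omega, le_max_left _ _, by norm_num, fun j hj => ?_⟩
  obtain ⟨f1, f2, f5, f8, f7, f4⟩ := hJ0 j ((le_max_right _ _).trans hj)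
  have hj3 : 3 ≤ j := (le_max_left _ _).trans f2
  have hj2 : 2 * B ≤ j := (le_max_right _ _).trans f2
  have hjr : (3 : ℝ) ≤ j := by exact_mod_cast hj3
  have hj0 : (0 : ℝ) < j := by linarith
  have hL1 : 1 ≤ Real.log j := by linarith
  have hj2r : 2 * (B : ℝ) ≤ j := by exact_mod_cast hj2
  have hBL : 4 ≤ B * Real.log j := by nlinarith
  have hBLj : B * Real.log j ≤ j := by nlinarith
  refine fin_step B j hB4n hj3 hj2 f5 f7 f8 ?_
  have hlogx : Real.log ((j : ℝ) ^ B) = B * Real.log j := Real.log_pow _ _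
  have hu : Real.log (j + 1) ≤ Real.log j + 1 / j := by
    have h1 : Real.log (j + 1) = Real.log j + Real.log (1 + 1 / j) := by
      rw [← Real.log_mul (by positivity) (by positivity)]
      congr 1
      field_simp
    rw [h1]
    have := Real.log_le_sub_one_of_pos (show (0 : ℝ) < 1 + 1 / j by positivity)
    linarith
  have hu' : Real.log j ≤ Real.log (j + 1) := Real.log_le_log hj0 (by linarith)
  have hBj : (B : ℝ) * (1 / j) ≤ 1 / 2 := by
    rw [mul_one_div, div_le_iff₀ hj0]
    linarith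
  refine hG ((j : ℝ) ^ B) _ _ ?_ ?_ ?_ ?_ ?_ _ (Nat.le_ceil _)
  · refine f1.trans ?_
    calc (j : ℝ) = (j : ℝ) ^ 1 := (pow_one _).symm
      _ ≤ (j : ℝ) ^ B := pow_le_pow_right₀ (by linarith) (by omega)
  · rw [← Real.rpow_natCast, ← Real.rpow_mul hj0.le]
    have h1 : (j : ℝ) ^ ((B : ℝ) * -d0) ≤ (j : ℝ) ^ (-(2 : ℝ)) :=
      Real.rpow_le_rpow_of_exponent_le (by linarith) (by linarith)
    refine h1.trans ?_
    rw [Real.rpow_neg hj0.le, ← one_div]
    apply one_div_le_one_div_of_le (by positivity)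
    have h3 : (j : ℝ) ^ (2 : ℝ) = (j : ℝ) * j := by
      rw [show (2 : ℝ) = ((2 : ℕ) : ℝ) by norm_num, Real.rpow_natCast]
      ring
    rw [h3]
    exact mul_le_mul_of_nonneg_left hBLj hj0.le
  · rw [hlogx, Real.rpow_neg (by positivity), ← one_div]
    apply one_div_le_one_div_of_le (Real.rpow_pos_of_pos (by positivity) _)
    refine f4.trans ?_
    nlinarith
  · rw [hlogx]
    have := mul_le_mul_of_nonneg_left hu' hB0.le
    linarith
  · rw [Real.log_mul (by norm_num) (by positivity), hlogx]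
    have h1 := mul_le_mul_of_nonneg_left hu hB0.le
    have h3 := Real.log_two_gt_d9
    linarith

end Pool.Agent.H11.WX
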