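import Mathlib

/-!
# WILD H: the Gaussian kernel
-/

set_option autoImplicit false

open MeasureTheory Finset

namespace Pool.Agent.H11.WX

/-- the Gaussian kernel -/
noncomputable def gk (δ v : ℝ) : ℝ := Real.exp (-(v ^ 2 / (2 * δ ^ 2))) / (δ * Real.sqrt (2 * Real.pi))

theorem gk_neg (δ v : ℝ) : gk δ (-v) = gk δ v := by
  unfold gk
  rw [neg_sq]

theorem gk_four {δ : ℝ} (hδ : 0 < δ) (v : ℝ) :
    ((gk δ v : ℝ) : ℂ) = (1 / (2 * Real.pi) : ℝ) *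
      ∫ t : ℝ, Complex.exp (Complex.I * v * t) * (Real.exp (-(δ ^ 2 * t ^ 2 / 2)) : ℝ) := by
  have hb : 0 < ((δ ^ 2 / 2 : ℝ) : ℂ).re := by
    rw [Complex.ofReal_re]
    positivity
  have h1 := fourierIntegral_gaussian hb (v : ℂ)
  have h2 : ∫ t : ℝ, Complex.exp (Complex.I * v * t) * (Real.exp (-(δ ^ 2 * t ^ 2 / 2)) : ℝ)
      = ∫ t : ℝ, Complex.exp (Complex.I * v * t) * Complex.exp (-((δ ^ 2 / 2 : ℝ) : ℂ) * (t : ℂ) ^ 2) := by
    congr 1
    funext t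
    rw [Complex.ofReal_exp]
    congr 2
    push_cast
    ring
  rw [h2, h1]
  have h3 : (((Real.pi : ℝ) : ℂ) / ((δ ^ 2 / 2 : ℝ) : ℂ)) ^ (1 / 2 : ℂ)
      = ((Real.sqrt (2 * Real.pi) / δ : ℝ) : ℂ) := by
    have h4 : (((Real.pi : ℝ) : ℂ) / ((δ ^ 2 / 2 : ℝ) : ℂ)) = ((Real.pi / (δ ^ 2 / 2) : ℝ) : ℂ) := by
      push_cast
      ring
    have h5 : (1 / 2 : ℂ) = ((1 / 2 : ℝ) : ℂ) := by
      push_cast
      ring
    rw [h4, h5, ← Complex.ofReal_cpow (by positivity)]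
    congr 1
    rw [← Real.sqrt_eq_rpow]
    have h6 : Real.pi / (δ ^ 2 / 2) = (2 * Real.pi) / δ ^ 2 := by
      field_simp
    rw [h6, Real.sqrt_div (by positivity), Real.sqrt_sq hδ.le]
  rw [h3]
  have h7 : Complex.exp (-(v : ℂ) ^ 2 / (4 * ((δ ^ 2 / 2 : ℝ) : ℂ))) =
      ((Real.exp (-(v ^ 2 / (2 * δ ^ 2))) : ℝ) : ℂ) := by
    rw [Complex.ofReal_exp]
    congr 1
    have : (δ : ℂ) ≠ 0 := by exact_mod_cast hδ.ne'
    push_cast
    field_simp
    ring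
  rw [h7, ← Complex.ofReal_mul, ← Complex.ofReal_mul]
  congr 1
  unfold gk
  have h8 : Real.sqrt (2 * Real.pi) * Real.sqrt (2 * Real.pi) = 2 * Real.pi :=
    Real.mul_self_sqrt (by positivity)
  have h9 : 0 < Real.sqrt (2 * Real.pi) := Real.sqrt_pos.2 (by positivity)
  have h10 : 0 < Real.pi := Real.pi_pos
  rw [div_eq_iff (by positivity)]
  have h11 : 1 / (2 * Real.pi) * (Real.sqrt (2 * Real.pi) / δ * Real.exp (-(v ^ 2 / (2 * δ ^ 2)))) *
      (δ * Real.sqrt (2 * Real.pi)) = (Real.sqrt (2 * Real.pi) * Real.sqrt (2 * Real.pi)) / (2 * Real.pi) *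
      Real.exp (-(v ^ 2 / (2 * δ ^ 2))) := by
    field_simp
  rw [h11, h8, div_self (by positivity), one_mul]

theorem gau_int {δ : ℝ} (hδ : 0 < δ) : Integrable (fun t : ℝ => Real.exp (-(δ ^ 2 * t ^ 2 / 2))) := by
  have h := integrable_exp_neg_mul_sq (b := δ ^ 2 / 2) (by positivity)
  refine h.congr (Filter.Eventually.of_forall fun t => ?_)
  show Real.exp (-(δ ^ 2 / 2) * t ^ 2) = Real.exp (-(δ ^ 2 * t ^ 2 / 2))
  congr 1
  ring

/-- the smoothed sum -/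
noncomputable def Gs (f : ℕ → ℂ) (N : ℕ) (δ y : ℝ) : ℂ :=
  ∑ n ∈ Icc 1 N, f n / n * (gk δ (Real.log n - y) : ℝ)

/-- the Dirichlet polynomial at `1+it` -/
noncomputable def Fp (f : ℕ → ℂ) (N : ℕ) (t : ℝ) : ℂ :=
  ∑ n ∈ Icc 1 N, f n * (n : ℂ) ^ (-(1 + (t : ℂ) * Complex.I))

theorem Fp_cont (f : ℕ → ℂ) (N : ℕ) : Continuous (Fp f N) := by
  unfold Fp
  refine continuous_finsetSum _ fun n _ => ?_
  refine continuous_const.mul ?_
  refine Continuous.const_cpow (by fun_prop) (Or.inr fun t h => ?_)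
  have := congrArg Complex.re h
  simp at this

theorem Fp_le (f : ℕ → ℂ) (N : ℕ) (t : ℝ) : ‖Fp f N t‖ ≤ ∑ n ∈ Icc 1 N, ‖f n‖ / n := by
  unfold Fp
  refine (norm_sum_le _ _).trans (Finset.sum_le_sum fun n hn => ?_)
  have hn0 : 0 < n := by
    rw [mem_Icc] at hn
    omega
  rw [norm_mul, Complex.norm_natCast_cpow_of_pos hn0]
  have : (-(1 + (t : ℂ) * Complex.I)).re = -1 := by simp
  rw [this, Real.rpow_neg_one, div_eq_mul_inv]

theorem Gs_four (f : ℕ → ℂ) (N : ℕ) {δ : ℝ} (hδ : 0 < δ) (y : ℝ) :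
    Gs f N δ y = (1 / (2 * Real.pi) : ℝ) *
      ∫ t : ℝ, Complex.exp (Complex.I * y * t) * Fp f N t * (Real.exp (-(δ ^ 2 * t ^ 2 / 2)) : ℝ) := by
  have hint : ∀ n ∈ Icc 1 N, Integrable (fun t : ℝ => f n / n *
      (Complex.exp (Complex.I * ((y - Real.log n : ℝ) : ℂ) * t) * (Real.exp (-(δ ^ 2 * t ^ 2 / 2)) : ℝ))) := by
    intro n _
    refine Integrable.const_mul ?_ _
    refine ((gau_int hδ).ofReal (𝕜 := ℂ)).bdd_mul (c := 1) ?_ ?_
    · exact (by fun_prop : Continuous fun t : ℝ =>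
        Complex.exp (Complex.I * ((y - Real.log n : ℝ) : ℂ) * t)).aestronglyMeasurable
    · refine Filter.Eventually.of_forall fun t => ?_
      have : Complex.I * ((y - Real.log n : ℝ) : ℂ) * t = (((y - Real.log n) * t : ℝ) : ℂ) * Complex.I := by
        push_cast
        ring
      rw [this, Complex.norm_exp_ofReal_mul_I]
  have h1 : Gs f N δ y = ∑ n ∈ Icc 1 N, (1 / (2 * Real.pi) : ℝ) * ∫ t : ℝ, f n / n *
      (Complex.exp (Complex.I * ((y - Real.log n : ℝ) : ℂ) * t) * (Real.exp (-(δ ^ 2 * t ^ 2 / 2)) : ℝ)) := by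
    unfold Gs
    refine Finset.sum_congr rfl fun n _ => ?_
    rw [integral_const_mul, ← gk_neg, neg_sub, gk_four hδ]
    ring
  rw [h1, ← Finset.mul_sum, ← integral_finsetSum _ hint]
  congr 1
  refine integral_congr_ae (Filter.Eventually.of_forall fun t => ?_)
  show ∑ n ∈ Icc 1 N, f n / n * (Complex.exp (Complex.I * ((y - Real.log n : ℝ) : ℂ) * t) *
      (Real.exp (-(δ ^ 2 * t ^ 2 / 2)) : ℝ)) =
      Complex.exp (Complex.I * y * t) * Fp f N t * (Real.exp (-(δ ^ 2 * t ^ 2 / 2)) : ℝ)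
  unfold Fp
  rw [Finset.mul_sum, Finset.sum_mul]
  refine Finset.sum_congr rfl fun n hn => ?_
  have hn0 : (n : ℂ) ≠ 0 := by
    rw [mem_Icc] at hn
    have : n ≠ 0 := by omega
    exact_mod_cast this
  have h2 : (n : ℂ) ^ (-(1 + (t : ℂ) * Complex.I)) = (n : ℂ)⁻¹ * Complex.exp (-(t * Complex.I * Real.log n)) := by
    rw [neg_add, Complex.cpow_add _ _ hn0, Complex.cpow_neg_one, Complex.cpow_def_of_ne_zero hn0]
    congr 2
    rw [← Complex.natCast_log]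
    ring
  have h3 : Complex.exp (Complex.I * ((y - Real.log n : ℝ) : ℂ) * t) =
      Complex.exp (Complex.I * y * t) * Complex.exp (-(t * Complex.I * Real.log n)) := by
    rw [← Complex.exp_add]
    congr 1
    push_cast
    ring
  rw [h2, h3]
  ring

/-- the multiplier of the difference -/
noncomputable def ml (δ δ1 t : ℝ) : ℝ := Real.exp (-(δ ^ 2 * t ^ 2 / 2)) - Real.exp (-(δ1 ^ 2 * t ^ 2 / 2))

theorem ml_nonneg {δ δ1 : ℝ} (h0 : 0 < δ) (h : δ ≤ δ1) (t : ℝ) : 0 ≤ ml δ δ1 t := by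
  unfold ml
  rw [sub_nonneg]
  apply Real.exp_le_exp.2
  have : δ ^ 2 ≤ δ1 ^ 2 := by
    apply pow_le_pow_left₀ h0.le h
  nlinarith [sq_nonneg t, mul_le_mul_of_nonneg_right this (sq_nonneg t)]

theorem ml_le_one (δ δ1 t : ℝ) : ml δ δ1 t ≤ 1 := by
  unfold ml
  have h1 : Real.exp (-(δ ^ 2 * t ^ 2 / 2)) ≤ 1 := Real.exp_le_one_iff.2 (by
    have : 0 ≤ δ ^ 2 * t ^ 2 / 2 := by positivity
    linarith)
  have h2 := Real.exp_pos (-(δ1 ^ 2 * t ^ 2 / 2))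
  linarith

theorem ml_le_exp (δ δ1 t : ℝ) : ml δ δ1 t ≤ Real.exp (-(δ ^ 2 * t ^ 2 / 2)) := by
  unfold ml
  have h2 := Real.exp_pos (-(δ1 ^ 2 * t ^ 2 / 2))
  linarith

theorem ml_le_sq (δ δ1 t : ℝ) : ml δ δ1 t ≤ δ1 ^ 2 * t ^ 2 := by
  unfold ml
  have h1 : Real.exp (-(δ ^ 2 * t ^ 2 / 2)) ≤ 1 := Real.exp_le_one_iff.2 (by
    have : 0 ≤ δ ^ 2 * t ^ 2 / 2 := by positivity
    linarith)
  have h2 := Real.add_one_le_exp (-(δ1 ^ 2 * t ^ 2 / 2))
  have h3 : 0 ≤ δ1 ^ 2 * t ^ 2 := by positivity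
  linarith

theorem ml_int {δ δ1 : ℝ} (h0 : 0 < δ) (h1 : 0 < δ1) : Integrable (ml δ δ1) :=
  (gau_int h0).sub (gau_int h1)

theorem Fml_int (f : ℕ → ℂ) (N : ℕ) {δ δ1 : ℝ} (h0 : 0 < δ) (h1 : 0 < δ1) :
    Integrable (fun t : ℝ => ‖Fp f N t‖ * ml δ δ1 t) := by
  refine (ml_int h0 h1).bdd_mul (c := ∑ n ∈ Icc 1 N, ‖f n‖ / n) ?_ ?_
  · exact (Fp_cont f N).norm.aestronglyMeasurable
  · refine Filter.Eventually.of_forall fun t => ?_
    rw [norm_norm]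
    exact Fp_le f N t

/-- the main inequality of this file -/
theorem Gs_diff (f : ℕ → ℂ) (N : ℕ) {δ δ1 : ℝ} (h0 : 0 < δ) (h : δ ≤ δ1) (y : ℝ) :
    ‖Gs f N δ y - Gs f N δ1 y‖ ≤ ∫ t : ℝ, ‖Fp f N t‖ * ml δ δ1 t := by
  have h1 : 0 < δ1 := h0.trans_le h
  have hint : ∀ d : ℝ, 0 < d → Integrable (fun t : ℝ =>
      Complex.exp (Complex.I * y * t) * Fp f N t * (Real.exp (-(d ^ 2 * t ^ 2 / 2)) : ℝ)) := by
    intro d hd
    refine ((gau_int hd).ofReal (𝕜 := ℂ)).bdd_mul (c := ∑ n ∈ Icc 1 N, ‖f n‖ / n) ?_ ?_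
    · exact ((by fun_prop : Continuous fun t : ℝ => Complex.exp (Complex.I * y * t)).mul
        (Fp_cont f N)).aestronglyMeasurable
    · refine Filter.Eventually.of_forall fun t => ?_
      have : Complex.I * (y : ℂ) * t = ((y * t : ℝ) : ℂ) * Complex.I := by
        push_cast
        ring
      rw [norm_mul, this, Complex.norm_exp_ofReal_mul_I, one_mul]
      exact Fp_le f N t
  rw [Gs_four f N h0, Gs_four f N h1, ← mul_sub, ← integral_sub (hint δ h0) (hint δ1 h1), norm_mul]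
  have h2 : ‖((1 / (2 * Real.pi) : ℝ) : ℂ)‖ ≤ 1 := by
    rw [Complex.norm_real, Real.norm_of_nonneg (by positivity), div_le_one (by positivity)]
    linarith [Real.pi_gt_three]
  refine (mul_le_mul_of_nonneg_right h2 (norm_nonneg _)).trans ?_
  rw [one_mul]
  refine (norm_integral_le_integral_norm _).trans (le_of_eq ?_)
  refine integral_congr_ae (Filter.Eventually.of_forall fun t => ?_)
  show ‖Complex.exp (Complex.I * y * t) * Fp f N t * (Real.exp (-(δ ^ 2 * t ^ 2 / 2)) : ℝ) -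
    Complex.exp (Complex.I * y * t) * Fp f N t * (Real.exp (-(δ1 ^ 2 * t ^ 2 / 2)) : ℝ)‖ = _
  rw [← mul_sub, ← Complex.ofReal_sub, norm_mul, norm_mul]
  have : Complex.I * (y : ℂ) * t = ((y * t : ℝ) : ℂ) * Complex.I := by
    push_cast
    ring
  rw [this, Complex.norm_exp_ofReal_mul_I, one_mul, Complex.norm_real, Real.norm_of_nonneg]
  · rfl
  · exact ml_nonneg h0 h t

end Pool.Agent.H11.WX
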