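import Pool.Agent.H11.WX.Gau

/-!
# WILD H: the Gaussian kernel, second form
-/

set_option autoImplicit false

open MeasureTheory Finset

namespace Pool.Agent.H11.WX

theorem mm_int {δ δ1 : ℝ} (h0 : 0 < δ) :
    Integrable (fun t : ℝ => min (δ1 ^ 2 * t ^ 2) (Real.exp (-(δ ^ 2 * t ^ 2 / 2)))) := by
  refine (gau_int h0).mono' ?_ ?_
  · exact (by fun_prop : Continuous fun t : ℝ =>
      min (δ1 ^ 2 * t ^ 2) (Real.exp (-(δ ^ 2 * t ^ 2 / 2)))).aestronglyMeasurable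
  · refine Filter.Eventually.of_forall fun t => ?_
    rw [Real.norm_of_nonneg]
    · exact min_le_right _ _
    · exact le_min (by positivity) (Real.exp_pos _).le

theorem Fmm_int (f : ℕ → ℂ) (N : ℕ) {δ δ1 : ℝ} (h0 : 0 < δ) :
    Integrable (fun t : ℝ => ‖Fp f N t‖ * min (δ1 ^ 2 * t ^ 2) (Real.exp (-(δ ^ 2 * t ^ 2 / 2)))) := by
  refine (mm_int h0).bdd_mul (c := ∑ n ∈ Icc 1 N, ‖f n‖ / n) ?_ ?_
  · exact (Fp_cont f N).norm.aestronglyMeasurable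
  · refine Filter.Eventually.of_forall fun t => ?_
    rw [norm_norm]
    exact Fp_le f N t

theorem Gs_diff' (f : ℕ → ℂ) (N : ℕ) {δ δ1 : ℝ} (h0 : 0 < δ) (h : δ ≤ δ1) (y : ℝ) :
    ‖Gs f N δ y - Gs f N δ1 y‖ ≤
      ∫ t : ℝ, ‖Fp f N t‖ * min (δ1 ^ 2 * t ^ 2) (Real.exp (-(δ ^ 2 * t ^ 2 / 2))) := by
  refine (Gs_diff f N h0 h y).trans (integral_mono (Fml_int f N h0 (h0.trans_le h)) (Fmm_int f N h0) fun t => ?_)
  exact mul_le_mul_of_nonneg_left (le_min (ml_le_sq δ δ1 t) (ml_le_exp δ δ1 t)) (norm_nonneg _)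

end Pool.Agent.H11.WX
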